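import Mathlib.Combinatorics.SimpleGraph.StronglyRegular

namespace Pool.Agent.MP_1dbd31_co

/-- Deleting any set of at most `k - 1` edges leaves a graph of diameter at most `2`. -/
def Tolerant {V : Type} (k : ℕ) (G : SimpleGraph V) : Prop :=
  ∀ F : Finset (Sym2 V), F.card < k → (G.deleteEdges (F : Set (Sym2 V))).ediam ≤ 2

/-- The least number of edges of a `Tolerant k` graph on `n` vertices. -/
noncomputable def ghat (n k : ℕ) : ℕ :=
  sInf {m | ∃ G : SimpleGraph (Fin n), Tolerant k G ∧ G.edgeSet.ncard = m}

/-- There is a strongly regular graph with parameters `(v, D, l, u)`. -/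
def SrgExists (v D l u : ℕ) : Prop :=
  ∃ (M : SimpleGraph (Fin v)) (_ : DecidableRel M.Adj), M.IsSRGWith v D l u

end Pool.Agent.MP_1dbd31_co
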