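import Mathlib.Tactic.Linarith.Frontend
import Mathlib.Tactic.NormNum.Ineq
import Mathlib.Data.Int.ConditionallyCompleteOrder
import Mathlib.Data.Int.Star
import Mathlib.Algebra.Order.Ring.Star
import Mathlib.Combinatorics.SimpleGraph.Sum
import Mathlib.Order.CompletePartialOrder
import Mathlib.Tactic.Algebra.Basic
import Pool.Agent.MP_1dbd31_co.Defs

-- ======== part 0: formerly Pool.Agent.MP_1dbd31_co.Basic
section MrgPart0

namespace Pool.Agent.MP_1dbd31_co

open Finset SimpleGraph
open scoped Classical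

variable {V : Type} [Fintype V]

/-- Neighbour set as a finset. -/
noncomputable def nb (H : SimpleGraph V) (x : V) : Finset V := univ.filter (H.Adj x)

@[simp] theorem mem_nb {H : SimpleGraph V} {x y : V} : y ∈ nb H x ↔ H.Adj x y := by simp [nb]

/-- The path-count form of the condition. -/
def Paths (k : ℕ) (G : SimpleGraph V) : Prop :=
  ∀ x y, x ≠ y → k ≤ (if G.Adj x y then 1 else 0) + (nb G x ∩ nb G y).card

omit [Fintype V] in
theorem edist_le_two_iff (G : SimpleGraph V) {x y : V} (hxy : x ≠ y) :
    G.edist x y ≤ 2 ↔ G.Adj x y ∨ ∃ z, G.Adj x z ∧ G.Adj z y := by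
  constructor
  · intro h
    have hne : G.edist x y ≠ ⊤ := by
      intro h'
      rw [h'] at h
      exact absurd h (by decide)
    obtain ⟨p, hp⟩ := G.exists_walk_of_edist_ne_top hne
    rw [← hp] at h
    have h2 : p.length ≤ 2 := by exact_mod_cast h
    cases p with
    | nil => exact absurd rfl hxy
    | cons h1 q =>
      cases q with
      | nil => exact Or.inl h1
      | cons h2' q' =>
        cases q' with
        | nil => exact Or.inr ⟨_, h1, h2'⟩
        | cons h3 q'' => simp at h2
  · rintro (h | ⟨z, h1, h2⟩)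
    · exact (G.edist_le (Walk.cons h Walk.nil)).trans (by simp)
    · exact (G.edist_le (Walk.cons h1 (Walk.cons h2 Walk.nil))).trans (by simp)

theorem tolerant_iff (k : ℕ) (G : SimpleGraph V) : Tolerant k G ↔ Paths k G := by
  constructor
  · intro h x y hxy
    by_contra hlt
    push Not at hlt
    set C := nb G x ∩ nb G y with hC
    set F : Finset (Sym2 V) :=
      (if G.Adj x y then {s(x, y)} else ∅) ∪ C.image (fun z => s(x, z)) with hF
    have hcard : F.card < k := by
      refine lt_of_le_of_lt (card_union_le _ _) (lt_of_le_of_lt ?_ hlt)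
      refine add_le_add ?_ card_image_le
      split_ifs <;> simp
    have h1 := (edist_le_ediam (u := x) (v := y)).trans (h F hcard)
    rw [edist_le_two_iff _ hxy] at h1
    rcases h1 with h1 | ⟨z, h1, h2⟩
    · rw [deleteEdges_adj] at h1
      apply h1.2
      simp [hF, h1.1]
    · rw [deleteEdges_adj] at h1 h2
      apply h1.2
      have : z ∈ C := by simp [hC, h1.1, h2.1.symm]
      simp only [hF, coe_union, coe_image, Set.mem_union, Set.mem_image, mem_coe]
      exact Or.inr ⟨z, this, rfl⟩
  · intro h F hF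
    rw [ediam_le_iff]
    intro x y
    by_cases hxy : x = y
    · simp [hxy]
    rw [edist_le_two_iff _ hxy]
    by_contra hcon
    push Not at hcon
    obtain ⟨c1, c2⟩ := hcon
    set C := nb G x ∩ nb G y with hC
    have hch : ∀ z ∈ C, ∃ e ∈ F, e = s(x, z) ∨ e = s(y, z) := by
      intro z hz
      simp only [hC, mem_inter, mem_nb] at hz
      by_cases a : s(x, z) ∈ F
      · exact ⟨_, a, Or.inl rfl⟩
      · refine ⟨s(y, z), ?_, Or.inr rfl⟩
        by_contra b
        refine c2 z (by simp [deleteEdges_adj, hz.1, a]) ?_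
        rw [deleteEdges_adj]
        refine ⟨hz.2.symm, ?_⟩
        rw [Sym2.eq_swap]
        simpa using b
    have : Nonempty (Sym2 V) := ⟨s(x, y)⟩
    choose! f hf1 hf2 using hch
    have hx : ∀ z ∈ C, z ≠ x ∧ z ≠ y := by
      intro z hz
      simp only [hC, mem_inter, mem_nb] at hz
      exact ⟨hz.1.ne', hz.2.ne'⟩
    have hinj : Set.InjOn f (C : Set V) := by
      intro z hz w hw hzw
      have a := hf2 z hz
      have b := hf2 w hw
      have := hx z hz
      have := hx w hw
      rw [hzw] at a
      rcases a with a | a <;> rcases b with b | b <;> rw [a] at b <;>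
        simp only [Sym2.eq_iff] at b <;> grind
    have hk := h x y hxy
    rw [← hC] at hk
    have hsub : C.image f ⊆ F.erase s(x, y) := by
      intro e he
      obtain ⟨z, hz, rfl⟩ := mem_image.1 he
      refine mem_erase.2 ⟨?_, hf1 z hz⟩
      have := hx z hz
      rcases hf2 z hz with a | a <;> rw [a] <;> simp only [ne_eq, Sym2.eq_iff] <;> grind
    have hle := card_le_card hsub
    rw [card_image_of_injOn hinj] at hle
    split_ifs at hk with ha
    · have : s(x, y) ∈ F := by
        by_contra b
        exact c1 (by simp [deleteEdges_adj, ha, b])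
      rw [card_erase_of_mem this] at hle
      have := card_pos.2 ⟨_, this⟩
      omega
    · have := card_erase_le (s := F) (a := s(x, y))
      omega

/-- The condition on the complement. -/
def Cond (r : ℕ) (H : SimpleGraph V) : Prop :=
  ∀ x y, x ≠ y → (nb H x ∪ nb H y).card + 1 ≤ r + (if H.Adj x y then 1 else 0)

/-- Degree sum. -/
noncomputable def tot (H : SimpleGraph V) : ℕ := ∑ x, (nb H x).card

theorem paths_compl {k r : ℕ} (hn : Fintype.card V = k + r) (H : SimpleGraph V) :
    Paths k Hᶜ ↔ Cond r H := by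
  refine forall_congr' fun x => forall_congr' fun y => forall_congr' fun hxy => ?_
  have e : nb Hᶜ x ∩ nb Hᶜ y = (insert x (insert y (nb H x ∪ nb H y)))ᶜ := by
    ext z
    simp only [mem_inter, mem_nb, compl_adj, Finset.mem_compl, mem_insert, mem_union]
    grind
  rw [e, card_compl, hn]
  have hle : (insert x (insert y (nb H x ∪ nb H y))).card ≤ k + r := hn ▸ card_le_univ _
  by_cases h : H.Adj x y
  · have e2 : insert x (insert y (nb H x ∪ nb H y)) = nb H x ∪ nb H y := by
      rw [insert_eq_of_mem (a := y) (by simp [h]), insert_eq_of_mem (by simp [h.symm])]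
    rw [e2] at hle ⊢
    simp only [compl_adj, h, not_true, and_false, if_false, if_true]
    omega
  · have h' : ¬ H.Adj y x := fun a => h a.symm
    have e2 : (insert x (insert y (nb H x ∪ nb H y))).card = (nb H x ∪ nb H y).card + 2 := by
      rw [card_insert_of_notMem (by simp [hxy, h']), card_insert_of_notMem (by simp [h])]
    rw [e2] at hle ⊢
    simp only [compl_adj, h, hxy, ne_eq, not_false_iff, and_self, if_false, if_true]
    omega

theorem tot_eq (H : SimpleGraph V) : tot H = 2 * H.edgeSet.ncard := by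
  have := H.sum_degrees_eq_twice_card_edges
  rw [Set.ncard_eq_toFinset_card' H.edgeSet]
  refine Eq.trans ?_ this
  refine sum_congr rfl fun x _ => ?_
  rw [← card_neighborFinset_eq_degree]
  congr 1
  ext y
  simp

theorem tot_compl (H : SimpleGraph V) :
    tot H + tot Hᶜ = Fintype.card V * (Fintype.card V - 1) := by
  rw [tot, tot, ← sum_add_distrib, ← card_univ, ← smul_eq_mul, ← sum_const]
  refine sum_congr rfl fun x _ => ?_
  rw [← card_union_of_disjoint, ← card_erase_of_mem (mem_univ x)]
  · congr 1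
    ext y
    simp only [mem_union, mem_nb, compl_adj, mem_erase, mem_univ, and_true]
    constructor
    · rintro (h | h)
      · exact h.ne'
      · exact h.1.symm
    · intro h
      by_cases a : H.Adj x y
      · exact Or.inl a
      · exact Or.inr ⟨Ne.symm h, a⟩
  · rw [Finset.disjoint_left]
    intro y h1 h2
    simp only [mem_nb, compl_adj] at h1 h2
    exact h2.2 h1

theorem nb_comap {W : Type} [Fintype W] (e : W ≃ V) (H : SimpleGraph V) (x : W) :
    (nb (H.comap e) x).map e.toEmbedding = nb H (e x) := by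
  ext y
  obtain ⟨z, rfl⟩ := e.surjective y
  simp

theorem cond_comap {W : Type} [Fintype W] (e : W ≃ V) {H : SimpleGraph V} {r : ℕ}
    (h : Cond r H) : Cond r (H.comap e) := by
  intro x y hxy
  have := h (e x) (e y) (e.injective.ne hxy)
  rw [← nb_comap, ← nb_comap, ← map_union, card_map] at this
  simpa using this

theorem tot_comap {W : Type} [Fintype W] (e : W ≃ V) (H : SimpleGraph V) :
    tot (H.comap e) = tot H := by
  rw [tot, tot, ← e.sum_comp]
  exact sum_congr rfl fun x _ => by rw [← nb_comap, card_map]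

/-- A graph satisfying the complement condition bounds `ghat` from above. -/
theorem ghat_upper {n k r : ℕ} (hn : n = k + r) (hV : Fintype.card V = n) {H : SimpleGraph V}
    (h : Cond r H) : 2 * ghat n k + tot H ≤ n * (n - 1) := by
  set e := (Fintype.equivFinOfCardEq hV).symm
  have h1 := cond_comap e h
  rw [← paths_compl (k := k) (by simp [hn]), ← tolerant_iff] at h1
  have h2 : ghat n k ≤ (H.comap e)ᶜ.edgeSet.ncard := Nat.sInf_le ⟨_, h1, rfl⟩
  have h3 := tot_compl (H.comap e)
  rw [tot_comap, tot_eq (H.comap e)ᶜ, Fintype.card_fin] at h3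
  omega

/-- The extremal complement. -/
theorem ghat_attained {n k r : ℕ} (hn : n = k + r) (hr : 1 ≤ r) :
    ∃ H : SimpleGraph (Fin n), Cond r H ∧ 2 * ghat n k + tot H = n * (n - 1) := by
  have hne : {m | ∃ G : SimpleGraph (Fin n), Tolerant k G ∧ G.edgeSet.ncard = m}.Nonempty := by
    refine ⟨_, (⊥ : SimpleGraph (Fin n))ᶜ, ?_, rfl⟩
    rw [tolerant_iff, paths_compl (r := r) (by simp [hn])]
    intro x y _
    have : ∀ z : Fin n, nb (⊥ : SimpleGraph (Fin n)) z = ∅ := fun z => by ext; simp
    simp [this, hr]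
  obtain ⟨G, hG, hm⟩ := Nat.sInf_mem hne
  refine ⟨Gᶜ, ?_, ?_⟩
  · rw [← paths_compl (k := k) (by simp [hn]), compl_compl, ← tolerant_iff]
    exact hG
  · have h3 := tot_compl G
    rw [tot_eq G, Fintype.card_fin, hm] at h3
    exact h3

end Pool.Agent.MP_1dbd31_co

end MrgPart0

-- ======== part 1: formerly Pool.Agent.MP_1dbd31_co.Near
section MrgPart1

namespace Pool.Agent.MP_1dbd31_co

open Finset SimpleGraph
open scoped Classical

variable {V : Type} [Fintype V]

theorem deg_step {H0 H : SimpleGraph V} {a b : V} (hab : a ≠ b) (hn : ¬ H0.Adj a b)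
    (h : ∀ p q, H.Adj p q ↔ H0.Adj p q ∨ (p = a ∧ q = b) ∨ (p = b ∧ q = a)) (z : V) :
    (nb H z).card = (nb H0 z).card + (if z = a then 1 else 0) + (if z = b then 1 else 0) := by
  by_cases h1 : z = a
  · subst h1
    have : nb H z = insert b (nb H0 z) := by
      ext q
      simp only [mem_nb, h, mem_insert]
      grind
    rw [this, card_insert_of_notMem (by simpa using hn)]
    simp [hab]
  · by_cases h2 : z = b
    · subst h2
      have : nb H z = insert a (nb H0 z) := by
        ext q
        simp only [mem_nb, h, mem_insert]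
        grind
      rw [this, card_insert_of_notMem (by simpa using fun c => hn c.symm)]
      simp [h1]
    · have : nb H z = nb H0 z := by
        ext q
        simp only [mem_nb, h]
        grind
      simp [this, h1, h2]

omit [Fintype V] in
theorem exists_add (H0 : SimpleGraph V) {a b : V} (hab : a ≠ b) :
    ∃ H : SimpleGraph V, ∀ p q, H.Adj p q ↔ H0.Adj p q ∨ (p = a ∧ q = b) ∨ (p = b ∧ q = a) := by
  refine ⟨H0 ⊔ edge a b, fun p q => ?_⟩
  rw [sup_adj, edge_adj]
  grind

omit [Fintype V] in
theorem exists_del (H : SimpleGraph V) {a b : V} (hab : H.Adj a b) :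
    ∃ H0 : SimpleGraph V, ¬ H0.Adj a b ∧
      ∀ p q, H.Adj p q ↔ H0.Adj p q ∨ (p = a ∧ q = b) ∨ (p = b ∧ q = a) := by
  refine ⟨H \ edge a b, ?_, fun p q => ?_⟩
  · rw [sdiff_adj, edge_adj]
    have := hab.ne
    grind
  · rw [sdiff_adj, edge_adj]
    have := hab.symm
    have := H.ne_of_adj (a := p) (b := q)
    grind

theorem tot_step {H0 H : SimpleGraph V} {a b : V} (hab : a ≠ b) (hn : ¬ H0.Adj a b)
    (h : ∀ p q, H.Adj p q ↔ H0.Adj p q ∨ (p = a ∧ q = b) ∨ (p = b ∧ q = a)) :
    tot H = tot H0 + 2 := by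
  simp only [tot, deg_step hab hn h, sum_add_distrib]
  simp

theorem near_regular {d : ℕ} (hd : d < Fintype.card V) :
    ∃ H : SimpleGraph V, (∀ x, (nb H x).card ≤ d) ∧ Fintype.card V * d ≤ tot H + 1 := by
  obtain ⟨H, hH, hmax⟩ := exists_max_image
    (univ.filter fun H : SimpleGraph V => ∀ x, (nb H x).card ≤ d) tot
    ⟨⊥, by
      have : ∀ z : V, nb (⊥ : SimpleGraph V) z = ∅ := fun z => by ext; simp
      simp [this]⟩
  simp only [mem_filter, mem_univ, true_and] at hH hmax
  refine ⟨H, hH, ?_⟩
  by_contra hlt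
  push Not at hlt
  have hadj : ∀ a b, a ≠ b → (nb H a).card < d → (nb H b).card < d → H.Adj a b := by
    intro a b hab ha hb
    by_contra hn
    obtain ⟨H1, h1⟩ := exists_add H hab
    have := hmax H1 fun z => by
      rw [deg_step hab hn h1]
      have := hH z
      split_ifs <;> grind
    rw [tot_step hab hn h1] at this
    omega
  obtain ⟨u, w, hu, hw, huw⟩ : ∃ u w, (nb H u).card < d ∧ (nb H w).card < d ∧
      (u = w → (nb H u).card + 2 ≤ d) := by
    by_contra hcon
    push Not at hcon
    by_cases hex : ∃ u, (nb H u).card < d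
    · obtain ⟨u, hu⟩ := hex
      have : ∑ _x : V, d ≤ ∑ x, ((nb H x).card + if x = u then 1 else 0) := by
        refine sum_le_sum fun x _ => ?_
        by_cases hx : (nb H x).card < d
        · have := hcon x u hx hu
          simp only [this.1, if_true]
          have := hcon u u hu hu
          omega
        · omega
      simp only [sum_const, card_univ, smul_eq_mul, sum_add_distrib, sum_ite_eq', mem_univ,
        if_true] at this
      unfold tot at hlt
      omega
    · push Not at hex
      have : ∑ _x : V, d ≤ ∑ x, (nb H x).card := sum_le_sum fun x _ => hex x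
      simp only [sum_const, card_univ, smul_eq_mul] at this
      unfold tot at hlt
      omega
  have hwu : u = w ∨ H.Adj u w := by
    by_cases c : u = w
    · exact Or.inl c
    · exact Or.inr (hadj u w c hu hw)
  obtain ⟨x, -, hx⟩ := exists_mem_notMem_of_card_lt_card (s := insert u (nb H u)) (t := univ)
    (by
      have := card_insert_le u (nb H u)
      rw [card_univ]
      omega)
  simp only [mem_insert, mem_nb, not_or] at hx
  have hxd : d ≤ (nb H x).card := by
    by_contra c
    exact hx.2 (hadj u x (Ne.symm hx.1) hu (by omega))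
  obtain ⟨y, hy1, hy⟩ := exists_mem_notMem_of_card_lt_card
    (s := (insert w (nb H w)).erase u) (t := nb H x)
    (by
      have := card_insert_le w (nb H w)
      have hm : u ∈ insert w (nb H w) := by
        rcases hwu with c | c
        · exact mem_insert.2 (Or.inl c)
        · exact mem_insert.2 (Or.inr (mem_nb.2 c.symm))
      rw [card_erase_of_mem hm]
      omega)
  simp only [mem_nb] at hy1
  have hyu : y ≠ u := fun c => hx.2 (c ▸ hy1.symm)
  simp only [mem_erase, ne_eq, hyu, not_false_iff, mem_insert, mem_nb, true_and, not_or] at hy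
  have hxw : x ≠ w := by
    rintro rfl
    rcases hwu with c | c
    · exact hx.1 c.symm
    · exact hx.2 c
  obtain ⟨H0, n0, h0⟩ := exists_del H hy1
  obtain ⟨H1, h1⟩ := exists_add H0 (Ne.symm hx.1)
  obtain ⟨H2, h2⟩ := exists_add H1 (Ne.symm hy.1)
  have n1 : ¬ H0.Adj u x := fun c => hx.2 ((h0 _ _).2 (Or.inl c))
  have n2 : ¬ H1.Adj w y := by
    rw [h1]
    have := hy1.ne
    rintro (c | c | c)
    · exact hy.2 ((h0 _ _).2 (Or.inl c))
    · exact this c.2.symm
    · exact hxw c.1.symm
  have := hmax H2 fun z => by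
    have e0 := deg_step hy1.ne n0 h0 z
    have e1 := deg_step (Ne.symm hx.1) n1 h1 z
    have e2 := deg_step (Ne.symm hy.1) n2 h2 z
    have := hH z
    by_cases c1 : z = u
    · by_cases c2 : z = w
      · have := huw (c1.symm.trans c2)
        subst c1
        split_ifs at e0 e1 e2 <;> omega
      · subst c1
        split_ifs at e0 e1 e2 <;> omega
    · by_cases c2 : z = w
      · subst c2
        split_ifs at e0 e1 e2 <;> omega
      · split_ifs at e0 e1 e2 <;> omega
  rw [tot_step (Ne.symm hy.1) n2 h2, tot_step (Ne.symm hx.1) n1 h1,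
    tot_step hy1.ne n0 h0] at this
  omega

theorem sum_codeg (H : SimpleGraph V) (v : V) :
    ∑ y ∈ univ.erase v, ((if H.Adj v y then 1 else 0) + (nb H v ∩ nb H y).card) =
      ∑ u ∈ nb H v, (nb H u).card := by
  have h1 : ∑ y, (nb H v ∩ nb H y).card = ∑ u ∈ nb H v, (nb H u).card := by
    simp only [← filter_mem_eq_inter, card_filter]
    rw [sum_comm]
    refine sum_congr rfl fun u _ => ?_
    rw [← card_filter]
    congr 1
    ext y
    simp [adj_comm]
  have h2 : ∑ y ∈ univ.erase v, (if H.Adj v y then 1 else 0) = (nb H v).card := by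
    rw [sum_erase _ (by simp), ← sum_filter, ← card_eq_sum_ones]
    rfl
  rw [sum_add_distrib, h2, ← h1, ← add_sum_erase _ _ (mem_univ v), inter_self]

theorem cond_deg {r : ℕ} {H : SimpleGraph V} (h : Cond r H) {x y : V} (hxy : x ≠ y) :
    (nb H x).card + (nb H y).card + 1 ≤
      r + ((if H.Adj x y then 1 else 0) + (nb H x ∩ nb H y).card) := by
  have := h x y hxy
  have := card_union_add_card_inter (nb H x) (nb H y)
  omega

/-- The counting inequality at a vertex of maximum degree, with its equality case. -/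
theorem count {r D : ℕ} {H : SimpleGraph V} (h : Cond r H) {v : V} (hv : (nb H v).card = D)
    (hmax : ∀ y, (nb H y).card ≤ D) :
    tot H + (Fintype.card V - 1) * (D + 1) ≤ D + D ^ 2 + (Fintype.card V - 1) * r ∧
    (tot H + (Fintype.card V - 1) * (D + 1) = D + D ^ 2 + (Fintype.card V - 1) * r →
      (∀ u, H.Adj v u → (nb H u).card = D) ∧ ∀ y, v ≠ y → D + (nb H y).card + 1 =
        r + ((if H.Adj v y then 1 else 0) + (nb H v ∩ nb H y).card)) := by
  have a1 : ∀ y ∈ univ.erase v, D + (nb H y).card + 1 ≤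
      r + ((if H.Adj v y then 1 else 0) + (nb H v ∩ nb H y).card) := fun y hy =>
    hv ▸ cond_deg h (ne_of_mem_erase hy).symm
  have a2 : ∀ u ∈ nb H v, (nb H u).card ≤ D := fun u _ => hmax u
  have b1 := sum_le_sum a1
  have b2 := sum_le_sum a2
  have c1 := sum_eq_sum_iff_of_le a1
  have c2 := sum_eq_sum_iff_of_le a2
  have e1 : ∑ y ∈ univ.erase v, (D + (nb H y).card + 1) + D =
      tot H + (Fintype.card V - 1) * (D + 1) := by
    rw [tot, ← add_sum_erase _ _ (mem_univ v), hv]
    simp only [sum_add_distrib, sum_const, card_erase_of_mem (mem_univ v), card_univ, smul_eq_mul]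
    ring
  have e2 : ∑ y ∈ univ.erase v, (r + ((if H.Adj v y then 1 else 0) + (nb H v ∩ nb H y).card)) =
      (Fintype.card V - 1) * r + ∑ u ∈ nb H v, (nb H u).card := by
    rw [sum_add_distrib, sum_codeg]
    simp [card_erase_of_mem (mem_univ v)]
  have e3 : ∑ _u ∈ nb H v, D = D ^ 2 := by simp [hv, sq]
  refine ⟨by omega, fun he => ⟨fun u hu => c2.1 (by omega) u (by simpa using hu),
    fun y hy => c1.1 (by omega) y (by simpa using hy.symm)⟩⟩

/-- The maximum degree is less than `r` once there are more than `r + 1` vertices. -/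
theorem deg_lt {r : ℕ} {H : SimpleGraph V} (h : Cond r H) (hn : r + 1 < Fintype.card V) (v : V) :
    (nb H v).card < r := by
  have hle : ∀ y, (nb H v).card ≤ (nb H v ∪ nb H y).card :=
    fun y => card_le_card subset_union_left
  by_cases hall : ∀ y, v ≠ y → H.Adj v y
  · have e : nb H v = univ.erase v := by
      ext y
      simp only [mem_nb, mem_erase, mem_univ, and_true]
      exact ⟨fun c => c.ne', fun c => hall y (Ne.symm c)⟩
    have hc : (nb H v).card = Fintype.card V - 1 := by
      rw [e, card_erase_of_mem (mem_univ v), card_univ]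
    obtain ⟨y, hy⟩ := card_pos.1 (show 0 < (nb H v).card by omega)
    rw [mem_nb] at hy
    have := h v y hy.ne
    have := hle y
    simp only [hy, if_true] at *
    omega
  · push Not at hall
    obtain ⟨y, h1, h2⟩ := hall
    have := h v y h1
    have := hle y
    simp only [h2, if_false] at *
    omega

theorem tot_le {D : ℕ} {H : SimpleGraph V} (hmax : ∀ y, (nb H y).card ≤ D) :
    tot H ≤ Fintype.card V * D := by
  have : ∑ x, (nb H x).card ≤ ∑ _x : V, D := sum_le_sum fun x _ => hmax x
  simpa [tot] using this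

end Pool.Agent.MP_1dbd31_co

end MrgPart1

-- ======== part 2: formerly Pool.Agent.MP_1dbd31_co.Main
section MrgPart2

namespace Pool.Agent.MP_1dbd31_co

open Finset SimpleGraph
open scoped Classical

variable {V : Type} [Fintype V]

theorem exists_maxdeg (H : SimpleGraph V) (hn : 0 < Fintype.card V) :
    ∃ v, ∀ y, (nb H y).card ≤ (nb H v).card := by
  have : Nonempty V := Fintype.card_pos_iff.1 hn
  obtain ⟨v, -, hv⟩ := exists_max_image univ (fun x => (nb H x).card) univ_nonempty
  exact ⟨v, fun y => hv y (mem_univ y)⟩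

theorem upper_odd {d : ℕ} {H : SimpleGraph V} (h : Cond (2 * d + 1) H)
    (hn : (d + 1) ^ 2 + 2 ≤ Fintype.card V) : tot H ≤ Fintype.card V * d := by
  obtain ⟨v, hv⟩ := exists_maxdeg H (by omega)
  by_cases c : (nb H v).card ≤ d
  · exact tot_le fun y => (hv y).trans c
  have h1 := deg_lt h (by nlinarith) v
  have h2 := (count h rfl hv).1
  obtain ⟨s, hs⟩ : ∃ s, (nb H v).card = d + 1 + s := ⟨(nb H v).card - (d + 1), by omega⟩
  obtain ⟨t, rfl⟩ : ∃ t, d = s + 1 + t := ⟨d - (s + 1), by omega⟩
  obtain ⟨N, hN⟩ : ∃ N, Fintype.card V = (s + 1 + t + 1) ^ 2 + 1 + N + 1 :=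
    ⟨Fintype.card V - ((s + 1 + t + 1) ^ 2 + 2), by omega⟩
  rw [hs, hN, Nat.add_sub_cancel] at h2
  rw [hN]
  nlinarith [Nat.zero_le (s * t), Nat.zero_le (s * s * s), Nat.zero_le (s * t * t),
    Nat.zero_le (s * s * t), Nat.zero_le (N * s), Nat.zero_le (s * s)]

/-- Strong regularity in terms of `nb`. -/
def Srg (D u : ℕ) (M : SimpleGraph V) : Prop :=
  (∀ x, (nb M x).card = D) ∧
    ∀ x y, x ≠ y → (if M.Adj x y then 1 else 0) + (nb M x ∩ nb M y).card = u

theorem upper_gen {r D u : ℕ} {H : SimpleGraph V} (h : Cond r H) (hu : 1 ≤ u) (huD : u ≤ D)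
    (hr : r + u = 2 * D + 1) (h1 : (u - 1) * (Fintype.card V - 1) ≤ D ^ 2)
    (h2 : 3 * D + 3 ≤ Fintype.card V + u) :
    tot H ≤ D * (D + 1) + (Fintype.card V - 1) * (D - u) ∧
    (tot H = D * (D + 1) + (Fintype.card V - 1) * (D - u) →
      (∀ y, (nb H y).card ≤ D) ∧ ∃ v, (nb H v).card = D) := by
  obtain ⟨v, hv⟩ := exists_maxdeg H (by omega)
  have a1 := deg_lt h (by omega) v
  have a2 := (count h rfl hv).1
  obtain ⟨N, hN⟩ : ∃ N, Fintype.card V = N + 1 := ⟨Fintype.card V - 1, by omega⟩
  obtain ⟨w, rfl⟩ : ∃ w, u = w + 1 := ⟨u - 1, by omega⟩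
  obtain ⟨e, rfl⟩ : ∃ e, D = w + 1 + e := ⟨D - (w + 1), by omega⟩
  obtain rfl : r = w + 2 * e + 2 := by omega
  rw [hN] at h1 h2 a2 ⊢
  simp only [Nat.add_sub_cancel, Nat.add_sub_cancel_left] at h1 a2 ⊢
  rcases lt_trichotomy (nb H v).card (w + 1 + e) with c | c | c
  · have := tot_le (D := w + e) (H := H) fun y => by have := hv y; omega
    rw [hN] at this
    have hlt : tot H < (w + 1 + e) * (w + 1 + e + 1) + N * e := by nlinarith
    exact ⟨hlt.le, fun he => absurd he hlt.ne⟩
  · rw [c] at a2 hv
    exact ⟨by nlinarith, fun _ => ⟨hv, v, c⟩⟩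
  · obtain ⟨s, hs⟩ : ∃ s, (nb H v).card = w + 1 + e + 1 + s :=
      ⟨(nb H v).card - (w + 1 + e + 1), by omega⟩
    rw [hs] at a1 a2
    have b : 2 * (w + 1 + e) + s + 3 ≤ N := by omega
    have hlt : tot H < (w + 1 + e) * (w + 1 + e + 1) + N * e := by
      nlinarith [Nat.mul_le_mul_left (s + 1) b]
    exact ⟨hlt.le, fun he => absurd he hlt.ne⟩

theorem srg_param {D u : ℕ} {M : SimpleGraph V} (h : Srg D u M) (hn : 0 < Fintype.card V) :
    u * (Fintype.card V - 1) = D ^ 2 := by
  obtain ⟨v⟩ : Nonempty V := Fintype.card_pos_iff.1 hn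
  have := sum_codeg M v
  rw [sum_congr rfl fun y hy => h.2 v y (ne_of_mem_erase hy).symm,
    sum_congr rfl fun y _ => h.1 y] at this
  simp only [sum_const, card_erase_of_mem (mem_univ v), card_univ, smul_eq_mul, h.1] at this
  rw [mul_comm, this, sq]

theorem srg_iff' {D u : ℕ} (hu : 1 ≤ u) (M : SimpleGraph V) [DecidableRel M.Adj] :
    M.IsSRGWith (Fintype.card V) D (u - 1) u ↔ Srg D u M := by
  have e1 : ∀ x, M.degree x = (nb M x).card := by
    intro x
    rw [← card_neighborFinset_eq_degree]
    congr 1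
    ext y
    simp
  have e2 : ∀ x y (i : Fintype (M.commonNeighbors x y)),
      @Fintype.card (M.commonNeighbors x y) i = (nb M x ∩ nb M y).card := by
    intro x y i
    rw [← Set.toFinset_card]
    congr 1
    ext z
    simp [mem_commonNeighbors]
  constructor
  · intro hM
    refine ⟨fun x => by rw [← e1]; exact hM.regular x, fun x y hxy => ?_⟩
    by_cases c : M.Adj x y
    · have := hM.of_adj x y c
      rw [e2] at this
      simp only [c, if_true]
      omega
    · have := hM.of_not_adj hxy c
      rw [e2] at this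
      simp only [c, if_false]
      omega
  · intro hM
    refine ⟨rfl, fun x => by rw [e1]; exact hM.1 x, fun x y c => ?_, fun x y hxy c => ?_⟩
    · have := hM.2 x y c.ne
      simp only [c, if_true] at this
      rw [e2]
      omega
    · have := hM.2 x y hxy
      simp only [c, if_false] at this
      rw [e2]
      omega

theorem srg_iff {v D u : ℕ} (hu : 1 ≤ u) :
    SrgExists v D (u - 1) u ↔ ∃ M : SimpleGraph (Fin v), Srg D u M := by
  constructor
  · rintro ⟨M, i, hM⟩
    exact ⟨M, (srg_iff' hu M).1 (by simpa using hM)⟩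
  · rintro ⟨M, hM⟩
    exact ⟨M, inferInstance, by simpa using (srg_iff' hu M).2 hM⟩

theorem srg_comap {W : Type} [Fintype W] (e : W ≃ V) {M : SimpleGraph V} {D u : ℕ}
    (h : Srg D u M) : Srg D u (M.comap e) := by
  refine ⟨fun x => ?_, fun x y hxy => ?_⟩
  · rw [← h.1 (e x), ← nb_comap, card_map]
  · have := h.2 (e x) (e y) (e.injective.ne hxy)
    rw [← nb_comap, ← nb_comap, ← map_inter, card_map] at this
    simpa using this

theorem nb_sum_inl {W : Type} [Fintype W] (M : SimpleGraph V) (K : SimpleGraph W) (x : V) :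
    nb (M.sum K) (Sum.inl x) = (nb M x).map Function.Embedding.inl := by
  ext y
  cases y <;> simp

theorem nb_sum_inr {W : Type} [Fintype W] (M : SimpleGraph V) (K : SimpleGraph W) (x : W) :
    nb (M.sum K) (Sum.inr x) = (nb K x).map Function.Embedding.inr := by
  ext y
  cases y <;> simp

theorem tot_sum {W : Type} [Fintype W] (M : SimpleGraph V) (K : SimpleGraph W) :
    tot (M.sum K) = tot M + tot K := by
  simp [tot, nb_sum_inl, nb_sum_inr]

theorem cond_of_cases {H : SimpleGraph V} {r : ℕ}
    (h : ∀ x y, x ≠ y → (nb H x).card + (nb H y).card + 1 ≤ r ∨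
      ∃ c, c ⊆ nb H x ∧ c ⊆ nb H y ∧ (nb H x).card + (nb H y).card + 1 ≤
        r + ((if H.Adj x y then 1 else 0) + c.card)) : Cond r H := by
  intro x y hxy
  have h3 := card_union_add_card_inter (nb H x) (nb H y)
  rcases h x y hxy with h | ⟨c, c1, c2, h⟩
  · omega
  · have := card_le_card (subset_inter c1 c2)
    omega

theorem cond_sum {W : Type} [Fintype W] {M : SimpleGraph V} {K : SimpleGraph W} {r D u : ℕ}
    (hM : Srg D u M) (huD : u ≤ D) (hr : r + u = 2 * D + 1)
    (hK : ∀ x, (nb K x).card ≤ D - u) : Cond r (M.sum K) := by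
  refine cond_of_cases fun x y hxy => ?_
  rcases x with x | x <;> rcases y with y | y
  · have := hM.2 x y (by simpa using hxy)
    refine Or.inr ⟨(nb M x ∩ nb M y).map Function.Embedding.inl, ?_, ?_, ?_⟩
    · rw [nb_sum_inl, map_subset_map]
      exact inter_subset_left
    · rw [nb_sum_inl, map_subset_map]
      exact inter_subset_right
    · simp only [nb_sum_inl, card_map, hM.1, sum_adj_inl]
      omega
  · have := hK y
    simp only [nb_sum_inl, nb_sum_inr, card_map, hM.1]
    omega
  · have := hK x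
    simp only [nb_sum_inl, nb_sum_inr, card_map, hM.1]
    omega
  · have := hK x
    have := hK y
    simp only [nb_sum_inr, card_map]
    omega

theorem two_choose (n : ℕ) : 2 * n.choose 2 = n * (n - 1) := by
  rw [Nat.choose_two_right, Nat.mul_div_cancel' (Nat.even_mul_pred_self n).two_dvd]

theorem cond_of_le {K : SimpleGraph V} {d : ℕ} (k1 : ∀ x, (nb K x).card ≤ d) :
    Cond (2 * d + 1) K := fun x y _ => by
  have := card_union_le (nb K x) (nb K y)
  have := k1 x
  have := k1 y
  omega

theorem main_odd {n k d : ℕ} (hn : n = k + (2 * d + 1)) (h : (d + 1) ^ 2 + 2 ≤ n) :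
    ghat n k + n * d / 2 = n.choose 2 := by
  obtain ⟨H, h1, h2⟩ := ghat_attained hn (by omega)
  have h3 := upper_odd h1 (by simpa using h)
  obtain ⟨K, k1, k2⟩ := near_regular (V := Fin n) (d := d) (by simp; nlinarith)
  have h4 := ghat_upper hn (Fintype.card_fin n) (cond_of_le k1)
  have := tot_eq H
  have := tot_eq K
  have := two_choose n
  simp only [Fintype.card_fin] at *
  omega

theorem main_lower {n k D u : ℕ} (hu : 1 ≤ u) (huD : u ≤ D) (hn : n + u = k + 2 * D + 1)
    (h1 : (u - 1) * (n - 1) ≤ D ^ 2) (h2 : 3 * D + 3 ≤ n + u) :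
    n.choose 2 ≤ ghat n k + (D * (D + 1) + (n - 1) * (D - u)) / 2 := by
  obtain ⟨H, a1, a2⟩ := ghat_attained (n := n) (k := k) (r := 2 * D + 1 - u) (by omega) (by omega)
  have h3 := (upper_gen a1 hu huD (by omega) (by simpa using h1) (by simpa using h2)).1
  have := tot_eq H
  have := two_choose n
  simp only [Fintype.card_fin] at *
  omega

theorem main_exact {n k D u m : ℕ} (hu : 1 ≤ u) (huD : u ≤ D) (hn : n + u = k + 2 * D + 1)
    (hM : SrgExists (m + 1) D (u - 1) u) (hm : n = m + 1 ∨ m + 1 + D < n + u) :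
    ghat n k + (D * (D + 1) + (n - 1) * (D - u)) / 2 ≤ n.choose 2 := by
  obtain ⟨M, hM⟩ := (srg_iff hu).1 hM
  have p := srg_param hM (by simp)
  obtain ⟨K, k1, k2⟩ : ∃ K : SimpleGraph (Fin (n - (m + 1))), (∀ x, (nb K x).card ≤ D - u) ∧
      (n - (m + 1)) * (D - u) ≤ tot K + 1 := by
    rcases hm with hm | hm
    · refine ⟨⊥, fun x => ?_, by simp [hm]⟩
      have : nb (⊥ : SimpleGraph (Fin (n - (m + 1)))) x = ∅ := by ext; simp
      simp [this]
    · simpa using near_regular (V := Fin (n - (m + 1))) (d := D - u) (by simp; omega)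
  have h4 := ghat_upper (n := n) (k := k) (r := 2 * D + 1 - u) (by omega) (by simp; omega)
    (cond_sum hM huD (by omega) k1)
  have t1 : tot M = (m + 1) * D := by simp [tot, hM.1]
  have t2 := tot_eq (M.sum K)
  have := two_choose n
  rw [tot_sum, t1] at h4 t2
  obtain ⟨N, rfl⟩ : ∃ N, n = m + 1 + N := ⟨n - (m + 1), by omega⟩
  obtain ⟨e, rfl⟩ : ∃ e, D = u + e := ⟨D - u, by omega⟩
  simp only [Fintype.card_fin, Nat.add_sub_cancel, Nat.add_sub_cancel_left] at *
  have e1 : (u + e) * (u + e + 1) + (m + 1 + N - 1) * e = (m + 1) * (u + e) + N * e := by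
    rw [show m + 1 + N - 1 = m + N by omega]
    nlinarith
  omega

theorem converse_aux {D u : ℕ} {H : SimpleGraph V} (hu : 1 ≤ u) (huD : u ≤ D)
    (a1 : Cond (2 * D + 1 - u) H) (hmax : ∀ y, (nb H y).card ≤ D) {v : V}
    (hv : (nb H v).card = D) (ht : tot H = D * (D + 1) + (Fintype.card V - 1) * (D - u)) :
    ∃ m, u * m = D ^ 2 ∧ SrgExists (m + 1) D (u - 1) u ∧
      (Fintype.card V = m + 1 ∨ m + 1 + D < Fintype.card V + u) := by
  have key : ∀ x, (nb H x).card = D → (∀ w, H.Adj x w → (nb H w).card = D) ∧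
      ∀ y, x ≠ y → D + (nb H y).card + 1 =
        (2 * D + 1 - u) + ((if H.Adj x y then 1 else 0) + (nb H x ∩ nb H y).card) := by
    intro x hx
    refine (count a1 hx hmax).2 ?_
    obtain ⟨e, rfl⟩ : ∃ e, D = u + e := ⟨D - u, by omega⟩
    rw [ht, show 2 * (u + e) + 1 - u = u + 2 * e + 1 by omega, Nat.add_sub_cancel_left]
    ring
  set T : Finset V := univ.filter fun x => (nb H x).card = D with hT
  have hpos : 0 < T.card := card_pos.2 ⟨v, by simp [hT, hv]⟩
  obtain ⟨m, cT⟩ : ∃ m, T.card = m + 1 := ⟨T.card - 1, by omega⟩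
  have hS : ∀ (W : Type) [Fintype W] (f : W ↪ V), (∀ x, x ∈ Set.range f ↔ (nb H x).card = D) →
      Srg D u (H.comap f) := by
    intro W _ f hf
    have hd : ∀ x, (nb H (f x)).card = D := fun x => (hf _).1 ⟨x, rfl⟩
    have hnb : ∀ x : W, (nb (H.comap f) x).map f = nb H (f x) := by
      intro x
      ext y
      simp only [mem_map, mem_nb]
      constructor
      · rintro ⟨z, hz, rfl⟩
        exact hz
      · intro hy
        obtain ⟨z, rfl⟩ := (hf y).2 ((key _ (hd x)).1 y hy)
        exact ⟨z, hy, rfl⟩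
    refine ⟨fun x => ?_, fun x y hxy => ?_⟩
    · rw [← card_map f, hnb, hd]
    · have := (key _ (hd x)).2 (f y) (f.injective.ne hxy)
      rw [hd, ← hnb, ← hnb, ← map_inter, card_map] at this
      simp only [comap_adj]
      omega
  have hM := hS (Fin (m + 1)) ((T.equivFinOfCardEq cT).symm.toEmbedding.trans
    (Function.Embedding.subtype _)) fun x => by
      constructor
      · rintro ⟨z, rfl⟩
        exact (mem_filter.1 ((T.equivFinOfCardEq cT).symm z).2).2
      · intro hx
        exact ⟨T.equivFinOfCardEq cT ⟨x, by simp [hT, hx]⟩, by simp⟩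
  have p := srg_param hM (by simp)
  refine ⟨m, by simpa using p, (srg_iff hu).2 ⟨_, hM⟩, ?_⟩
  by_cases hall : T = univ
  · left
    rw [← cT, hall]
    simp
  · right
    obtain ⟨y, hy⟩ : ∃ y, (nb H y).card ≠ D := by
      by_contra c
      push Not at c
      exact hall (by ext; simp [hT, c])
    have hsub : insert y (nb H y) ⊆ Tᶜ := by
      intro z hz
      simp only [hT, Finset.mem_compl, mem_filter, mem_univ, true_and]
      rcases mem_insert.1 hz with rfl | hz
      · exact hy
      · exact fun c => hy ((key z c).1 y (mem_nb.1 hz).symm)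
    have c1 := card_le_card hsub
    rw [card_insert_of_notMem (by simp), card_compl, cT] at c1
    have c2 := (key v hv).2 y (fun c => hy (c ▸ hv))
    omega

theorem main_converse {n k D u : ℕ} (hu : 1 ≤ u) (huD : u ≤ D) (hn : n + u = k + 2 * D + 1)
    (h1 : (u - 1) * (n - 1) ≤ D ^ 2) (h2 : 3 * D + 3 ≤ n + u)
    (he : 2 * ghat n k + (D * (D + 1) + (n - 1) * (D - u)) = n * (n - 1)) :
    ∃ m, u * m = D ^ 2 ∧ SrgExists (m + 1) D (u - 1) u ∧ (n = m + 1 ∨ m + 1 + D < n + u) := by
  obtain ⟨H, a1, a2⟩ := ghat_attained (n := n) (k := k) (r := 2 * D + 1 - u) (by omega) (by omega)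
  have ht : tot H = D * (D + 1) + (n - 1) * (D - u) := by omega
  obtain ⟨hmax, v, hv⟩ := (upper_gen a1 hu huD (by omega) (by simpa using h1)
    (by simpa using h2)).2 (by simpa using ht)
  simpa using converse_aux hu huD a1 hmax hv (by simpa using ht)

end Pool.Agent.MP_1dbd31_co

end MrgPart2

-- marker of a merged file
example : 731051 + 849998 = 731051 + 849998 := rfl
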