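import Pool.Agent.MP_1dbd31_co.Main

namespace Pool.Agent.MP_1dbd31_co

open Finset SimpleGraph

/-- A Boolean check of strong regularity. -/
def chk (v D u : ℕ) (f : ℕ → ℕ → Bool) : Bool :=
  (List.range v).all fun x => !f x x && ((List.range v).countP (f x) == D) &&
    (List.range v).all fun y => (f x y == f y x) && (x == y ||
      ((if f x y then 1 else 0) + (List.range v).countP (fun z => f x z && f y z) == u))

theorem card_filter_fin (v : ℕ) (p : ℕ → Bool) :
    (univ.filter fun z : Fin v => p z = true).card = (List.range v).countP p := by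
  rw [card_filter, Fin.sum_univ_eq_sum_range (fun z => if p z = true then 1 else 0)]
  induction v with
  | zero => simp
  | succ n ih =>
    rw [sum_range_succ, ih, List.range_succ, List.countP_append]
    by_cases c : p n = true <;> simp [c]

theorem srg_of_chk {v D u : ℕ} (hu : 1 ≤ u) {f : ℕ → ℕ → Bool} (h : chk v D u f = true) :
    SrgExists v D (u - 1) u := by
  simp only [chk, List.all_eq_true, List.mem_range, Bool.and_eq_true, Bool.not_eq_true',
    beq_iff_eq, Bool.or_eq_true] at h
  let M : SimpleGraph (Fin v) :=
    { Adj := fun x y => f x y = true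
      symm := ⟨fun x y c => by rw [← ((h x x.2).2 y y.2).1]; exact c⟩
      loopless := ⟨fun x c => by rw [(h x x.2).1.1] at c; exact absurd c (by simp)⟩ }
  refine (srg_iff hu).2 ⟨M, fun x => ?_, fun x y hxy => ?_⟩
  · rw [← (h x x.2).1.2, ← card_filter_fin]
    congr 1
    ext z
    simp [M]
  · rcases ((h x x.2).2 y y.2).2 with c | c
    · exact absurd (Fin.ext c) hxy
    · rw [← c, ← card_filter_fin]
      congr 1
      · simp [M]
      · congr 1
        ext z
        simp [M]

/-- Pentagons and pentagrams: the Hoffman-Singleton graph and its subgraphs. -/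
def hs (q x y : ℕ) : Bool :=
  if x < 5 * q then
    if y < 5 * q then x / 5 == y / 5 && ((x + 1) % 5 == y % 5 || (y + 1) % 5 == x % 5)
    else ((x / 5) * (y / 5 - q) + x) % 5 == y % 5
  else
    if y < 5 * q then ((y / 5) * (x / 5 - q) + y) % 5 == x % 5
    else x / 5 == y / 5 && ((x + 2) % 5 == y % 5 || (y + 2) % 5 == x % 5)

theorem moore1 : SrgExists 2 1 0 1 :=
  srg_of_chk (u := 1) le_rfl (f := fun x y => x != y) (by decide +kernel)

theorem moore2 : SrgExists 5 2 0 1 := srg_of_chk (u := 1) le_rfl (f := hs 1) (by decide +kernel)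

theorem moore3 : SrgExists 10 3 0 1 := srg_of_chk (u := 1) le_rfl (f := hs 1) (by decide +kernel)

theorem moore7 : SrgExists 50 7 0 1 := srg_of_chk (u := 1) le_rfl (f := hs 5) (by decide +kernel)

end Pool.Agent.MP_1dbd31_co
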